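import Pool.Agent.Y231.NC.Adm

set_option autoImplicit false
set_option maxHeartbeats 400000

namespace Pool.Agent.Results.MP_deb411_al.LatticeOfAdmissibleSets

open Pool.Agent.Helper6.LVar Pool.Agent.Helper6.NC Pool.Agent.Y231.NC

/-- **The number and the order of the subvarieties without covers.** Let `N` be the set of the
subvarieties of the variety `R` of representable `ℓ`-groups that have no cover in `R`.
(1) `N` has cardinality continuum. (2) The complete lattice of admissible sets of real numbers
(`Admissible`: closed subsets of `(1, ∞)`, stable under powers, that contain each `x > 1` all of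
whose large powers they contain) is order-isomorphic to a subset of `N` (ordered by inclusion),
intersections of admissible sets going to intersections of varieties and `(1, ∞)` to `R`.
(3) The powers of a single number above `1` are an admissible set, and the power set of `ℕ`
embeds into the lattice of admissible sets, again with intersections going to intersections. -/
theorem result :
    Cardinal.mk {V : LClass // IsSubvarietyOfR V ∧ NoCover V} = Cardinal.continuum.{1} ∧
    (∃ F : Set ℝ → LClass,
      (∀ S : Set ℝ, Admissible S → IsSubvarietyOfR (F S) ∧ NoCover (F S)) ∧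
      (∀ S T : Set ℝ, Admissible S → Admissible T → (Sub (F S) (F T) ↔ S ⊆ T)) ∧
      (∀ (ι : Type) (S : ι → Set ℝ), Nonempty ι → (∀ i, Admissible (S i)) →
        Admissible (⋂ i, S i) ∧
        ∀ (G : Type) [Group G] [Lattice G], F (⋂ i, S i) G ↔ ∀ i, F (S i) G) ∧
      (∀ (G : Type) [Group G] [Lattice G], F (Set.Ioi 1) G ↔ Representable G)) ∧
    Admissible (Set.Ioi 1) ∧
    (∀ l : ℝ, 1 < l → Admissible {z : ℝ | ∃ n : ℕ, 1 ≤ n ∧ z = l ^ n}) ∧
    ∃ P : Set ℕ → Set ℝ,
      (∀ A : Set ℕ, Admissible (P A)) ∧
      (∀ A B : Set ℕ, P A ⊆ P B ↔ A ⊆ B) ∧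
      (∀ (ι : Type) (A : ι → Set ℕ), Nonempty ι → P (⋂ i, A i) = ⋂ i, P (A i)) := by
  refine ⟨card_NN, ⟨VS, fun S hS => VS_mem hS, fun S T hS hT => VS_sub_iff hS hT, ?_,
    fun G _ _ => VS_Ioi G⟩, adm_Ioi, fun l hl => adm_powers hl, PP, adm_PP, PP_sub_iff, ?_⟩
  · intro ι S hι hS
    exact ⟨Admissible.inter hS, fun G _ _ => VS_inter S (fun i => (hS i).cl) G⟩
  · intro ι A hι
    exact PP_inter A

end Pool.Agent.Results.MP_deb411_al.LatticeOfAdmissibleSets
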